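import Pool.Agent.TH50.DQ.Tasks
import Pool.Agent.H422R2.LP.PTwo

/-!
# Primes dividing `Q - 1` (job 4035, after the module PTwo of H422R2/LP)
-/

set_option autoImplicit false

open Polynomial

namespace Pool.Agent.TH50.DQ.One1

open Pool.Agent.LP Pool.Agent.LP.T2

noncomputable section

/-- the `p`-adic norm as a real number -/
def nr (p : ℕ) (x : ℚ) : ℝ := ((padicNorm p x : ℚ) : ℝ)

set_option linter.unusedSectionVars false

variable {p : ℕ} [hp : Fact p.Prime]

lemma nr_nonneg (x : ℚ) : 0 ≤ nr p x := by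
  unfold nr
  exact_mod_cast padicNorm.nonneg x

lemma nr_zero : nr p 0 = 0 := by
  unfold nr
  rw [padicNorm.zero, Rat.cast_zero]

lemma nr_add {a b : ℚ} {B : ℝ} (ha : nr p a ≤ B) (hb : nr p b ≤ B) : nr p (a + b) ≤ B := by
  rcases le_max_iff.mp (padicNorm.nonarchimedean (p := p) (q := a) (r := b)) with h | h
  · refine le_trans ?_ ha
    unfold nr
    exact_mod_cast h
  · refine le_trans ?_ hb
    unfold nr
    exact_mod_cast h

lemma nr_sum {ι : Type} (s : Finset ι) (f : ι → ℚ) {B : ℝ} (hB : 0 ≤ B) (h : ∀ i ∈ s, nr p (f i) ≤ B) :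
    nr p (∑ i ∈ s, f i) ≤ B := by
  classical
  induction s using Finset.induction_on with
  | empty => rw [Finset.sum_empty, nr_zero]; exact hB
  | insert a s ha ih =>
    rw [Finset.sum_insert ha]
    exact nr_add (h a (Finset.mem_insert_self _ _)) (ih fun i hi => h i (Finset.mem_insert_of_mem hi))

lemma nr_le {x : ℚ} {e : ℤ} {X : ℝ} (h : padicNorm p x ≤ (p : ℚ) ^ e) (hX : (e : ℝ) ≤ X) :
    nr p x ≤ (p : ℝ) ^ X := by
  have hp1 : (1 : ℝ) ≤ p := by exact_mod_cast hp.out.one_lt.le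
  have h1 : nr p x ≤ (p : ℝ) ^ e := by
    have h' : ((padicNorm p x : ℚ) : ℝ) ≤ (((p : ℚ) ^ e : ℚ) : ℝ) := Rat.cast_le.mpr h
    rw [Rat.cast_zpow, Rat.cast_natCast] at h'
    exact h'
  refine h1.trans ?_
  rw [← Real.rpow_intCast]
  exact Real.rpow_le_rpow_of_exponent_le hp1 hX

lemma norm_pow (x : ℚ) (k : ℕ) : padicNorm p (x ^ k) = padicNorm p x ^ k := by
  induction k with
  | zero => simp
  | succ k ih => rw [pow_succ, pow_succ, padicNorm.mul, ih]

lemma norm_inv (x : ℚ) : padicNorm p (x⁻¹) = (padicNorm p x)⁻¹ := by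
  rw [inv_eq_one_div, padicNorm.div, padicNorm.one, one_div]

/-- Leibniz formula with real bounds -/
theorem leibniz (N : ℕ) (M : Matrix (Fin N) (Fin N) ℚ) (r c : ℕ → ℝ)
    (hr : ∀ i, 0 ≤ r i) (hc : ∀ i, 0 ≤ c i) (h : ∀ i j : Fin N, nr p (M i j) ≤ r i * c j) :
    nr p M.det ≤ (∏ i ∈ Finset.range N, r i) * ∏ j ∈ Finset.range N, c j := by
  classical
  rw [Matrix.det_apply]
  refine nr_sum _ _ (mul_nonneg (Finset.prod_nonneg fun i _ => hr i)
    (Finset.prod_nonneg fun i _ => hc i)) (fun σ _ => ?_)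
  have hs : nr p (Equiv.Perm.sign σ • ∏ i, M (σ i) i) = ∏ i, nr p (M (σ i) i) := by
    have h1 : nr p (∏ i, M (σ i) i) = ∏ i, nr p (M (σ i) i) := by
      refine Finset.induction_on (Finset.univ : Finset (Fin N)) ?_ ?_
      · simp [nr]
      · intro a s ha ih
        rw [Finset.prod_insert ha, Finset.prod_insert ha, ← ih]
        unfold nr
        rw [padicNorm.mul]
        push_cast
        rfl
    rcases Int.units_eq_one_or (Equiv.Perm.sign σ) with hσ | hσ
    · rw [hσ, one_smul, h1]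
    · rw [hσ, Units.neg_smul, one_smul, ← h1]
      unfold nr
      rw [padicNorm.neg]
  rw [hs]
  calc ∏ i, nr p (M (σ i) i) ≤ ∏ i : Fin N, (r (σ i) * c i) :=
        Finset.prod_le_prod (fun i _ => nr_nonneg _) (fun i _ => h (σ i) i)
    _ = (∏ i : Fin N, r (σ i)) * ∏ i : Fin N, c i := Finset.prod_mul_distrib
    _ = (∏ i : Fin N, r i) * ∏ i : Fin N, c i := by
        congr 1
        exact Equiv.prod_comp σ (fun i : Fin N => r i)
    _ = _ := by rw [Finset.prod_range, Finset.prod_range]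

/-! ### factorials -/

lemma fact_norm (n : ℕ) :
    padicNorm p ((n.factorial : ℕ) : ℚ) = (p : ℚ) ^ (-(padicValNat p n.factorial : ℤ)) := by
  have h : ((n.factorial : ℕ) : ℚ) ≠ 0 := by exact_mod_cast n.factorial_ne_zero
  rw [padicNorm.eq_zpow_of_nonzero h, padicValRat.of_nat]

lemma fact_norm_inv (n : ℕ) :
    (padicNorm p ((n.factorial : ℕ) : ℚ))⁻¹ = (p : ℚ) ^ (padicValNat p n.factorial : ℤ) := by
  rw [fact_norm, ← zpow_neg, neg_neg]

lemma val_le (n : ℕ) : (padicValNat p n.factorial : ℝ) ≤ n / ((p : ℝ) - 1) := by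
  have hp1 : (1 : ℝ) < p := by exact_mod_cast hp.out.one_lt
  have h := sub_one_mul_padicValNat_factorial (p := p) n
  have h1 : (p - 1) * padicValNat p n.factorial ≤ n := by omega
  rw [le_div_iff₀ (by linarith)]
  have h2 : (((p - 1 : ℕ) : ℝ)) = (p : ℝ) - 1 := by
    rw [Nat.cast_sub hp.out.one_lt.le]
    simp
  have h3 : (((p - 1) * padicValNat p n.factorial : ℕ) : ℝ) ≤ n := by exact_mod_cast h1
  rw [Nat.cast_mul, h2] at h3
  linarith

lemma val_ge (n : ℕ) :
    (n : ℝ) / ((p : ℝ) - 1) ≤ (padicValNat p n.factorial : ℝ) + Nat.log p n + 1 := by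
  have hp1 : (1 : ℝ) < p := by exact_mod_cast hp.out.one_lt
  have h := sub_one_mul_padicValNat_factorial (p := p) n
  have h1 : (Nat.digits p n).sum ≤ (p - 1) * (Nat.digits p n).length := by
    have h2 : ∀ l : List ℕ, (∀ d ∈ l, d < p) → l.sum ≤ (p - 1) * l.length := by
      intro l
      induction l with
      | nil => intro _; simp
      | cons a t ih =>
        intro h3
        have h4 := h3 a (by simp)
        have h5 := ih fun d hd => h3 d (by simp [hd])
        simp only [List.sum_cons, List.length_cons, mul_add, mul_one]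
        omega
    exact h2 _ fun d hd => Nat.digits_lt_base hp.out.one_lt hd
  have hlen : (Nat.digits p n).length ≤ Nat.log p n + 1 := by
    rcases Nat.eq_zero_or_pos n with rfl | hn
    · simp
    · rw [Nat.length_digits p n hp.out.one_lt hn.ne']
  have h3 : (Nat.digits p n).sum ≤ (p - 1) * (Nat.log p n + 1) :=
    h1.trans (Nat.mul_le_mul_left _ hlen)
  have h4 : n ≤ (p - 1) * (padicValNat p n.factorial + Nat.log p n + 1) := by
    have e : (p - 1) * (padicValNat p n.factorial + Nat.log p n + 1) =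
      (p - 1) * padicValNat p n.factorial + (p - 1) * (Nat.log p n + 1) := by ring
    rw [e, h]
    omega
  rw [div_le_iff₀ (by linarith)]
  have h5 : (n : ℝ) ≤ (((p - 1) * (padicValNat p n.factorial + Nat.log p n + 1) : ℕ) : ℝ) := by
    exact_mod_cast h4
  have h2 : (((p - 1 : ℕ) : ℝ)) = (p : ℝ) - 1 := by
    rw [Nat.cast_sub hp.out.one_lt.le]
    simp
  rw [Nat.cast_mul, h2] at h5
  push_cast at h5
  linarith

/-! ### the two parts of the linear form -/

lemma Tz_norm {Q : ℤ} (hQ : padicNorm p (Q : ℚ) = 1) (j k K : ℕ) (hk : k < p ^ (K + 1)) :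
    padicNorm p (Tz Q j k) ≤ ((p : ℚ) ^ K) ^ j := by
  unfold Tz
  refine padicNorm.sum_le' (fun s hs => ?_) (by positivity)
  rw [Finset.mem_Icc] at hs
  rw [padicNorm.div, norm_pow, padicNorm.div, hQ, padicNorm.one, div_one, one_pow, one_div, norm_pow, ← inv_pow]
  refine pow_le_pow_left₀ (inv_nonneg.2 (padicNorm.nonneg _)) ?_ _
  have h3 := norm_inv_nat (p := p) (j := s) (k := K) hs.1 (lt_of_le_of_lt hs.2 hk)
  rw [← norm_inv]
  exact_mod_cast h3

lemma cf_norm {Q : ℤ} (hQ : padicNorm p (Q : ℚ) = 1) (α β γ : ℤ) (k K : ℕ) (hk : k < p ^ (K + 1)) :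
    padicNorm p ((γ : ℚ) + (α : ℚ) * Tz Q 1 k + (β : ℚ) * Tz Q 2 k) ≤ (p : ℚ) ^ (2 * K : ℤ) := by
  have hp1 : (1 : ℚ) ≤ p := by exact_mod_cast hp.out.one_lt.le
  have h0 : (1 : ℚ) ≤ (p : ℚ) ^ K := one_le_pow₀ hp1
  have hT : (p : ℚ) ^ (2 * K : ℤ) = (p : ℚ) ^ K * (p : ℚ) ^ K := by
    rw [← pow_add, ← zpow_natCast]
    congr 1
    push_cast
    ring
  rw [hT]
  have ha := Tz_norm hQ 1 k K hk
  have hb := Tz_norm hQ 2 k K hk
  rw [pow_one] at ha
  rw [pow_two] at hb
  have h1 : padicNorm p (γ : ℚ) ≤ (p : ℚ) ^ K * (p : ℚ) ^ K :=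
    (padicNorm.of_int γ).trans (by nlinarith)
  have h2 : padicNorm p ((α : ℚ) * Tz Q 1 k) ≤ (p : ℚ) ^ K * (p : ℚ) ^ K := by
    rw [padicNorm.mul]
    have := padicNorm.of_int (p := p) α
    have h5 := padicNorm.nonneg (p := p) (Tz Q 1 k)
    nlinarith [padicNorm.nonneg (p := p) (α : ℚ)]
  have h3 : padicNorm p ((β : ℚ) * Tz Q 2 k) ≤ (p : ℚ) ^ K * (p : ℚ) ^ K := by
    rw [padicNorm.mul]
    have := padicNorm.of_int (p := p) β
    have h5 := padicNorm.nonneg (p := p) (Tz Q 2 k)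
    nlinarith [padicNorm.nonneg (p := p) (β : ℚ)]
  refine (padicNorm.nonarchimedean (p := p)).trans (max_le ?_ h3)
  exact (padicNorm.nonarchimedean (p := p)).trans (max_le h1 h2)

lemma norm_Q1 {Q : ℤ} (hQ1 : Q ≠ 1) :
    (padicNorm p ((Q : ℚ) - 1))⁻¹ = (p : ℚ) ^ (padicValInt p (Q - 1)) := by
  have h : ((Q - 1 : ℤ) : ℚ) ≠ 0 := by
    have : Q - 1 ≠ 0 := sub_ne_zero.mpr hQ1
    exact_mod_cast this
  have e : ((Q : ℚ) - 1) = ((Q - 1 : ℤ) : ℚ) := by push_cast; ring
  rw [e, padicNorm.eq_zpow_of_nonzero h, ← zpow_neg, neg_neg, padicValRat.of_int, zpow_natCast]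

lemma eb_norm {Q : ℤ} (hQ1 : Q ≠ 1) {q : ℚ[X]} {N K : ℕ} (hN : q.natDegree < N)
    (hK : q.natDegree < p ^ (K + 1)) {A : ℚ}
    (hA : 0 ≤ A) (h : ∀ n : ℤ, padicNorm p (q.eval (n : ℚ)) ≤ A) (α β : ℤ) :
    padicNorm p (-(α : ℚ) * EB Q q + (β : ℚ) * EB Q (derivative q)) ≤
      ((p : ℚ) ^ (padicValInt p (Q - 1))) ^ N * ((p : ℚ) ^ K * A) := by
  have hp1 : (1 : ℚ) ≤ p := by exact_mod_cast hp.out.one_lt.le
  have h1 := norm_EB_deg hQ1 hN hA h
  rw [norm_Q1 hQ1] at h1
  have h2 : padicNorm p (EB Q (derivative q)) ≤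
      ((p : ℚ) ^ (padicValInt p (Q - 1))) ^ N * ((p : ℚ) ^ K * A) := by
    rw [← norm_Q1 hQ1]
    refine norm_EB_deg hQ1 (lt_of_le_of_lt (natDegree_derivative_le q) (by omega)) (by positivity) fun n => ?_
    have := norm_derivative (p := p) hK hA h n
    exact_mod_cast this
  have hK1 : (1 : ℚ) ≤ (p : ℚ) ^ K := one_le_pow₀ hp1
  have h3 : padicNorm p (EB Q q) ≤ ((p : ℚ) ^ (padicValInt p (Q - 1))) ^ N * ((p : ℚ) ^ K * A) := by
    refine h1.trans (mul_le_mul_of_nonneg_left ?_ (by positivity))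
    nlinarith
  refine (padicNorm.nonarchimedean (p := p)).trans (max_le ?_ ?_)
  · rw [padicNorm.mul, padicNorm.neg]
    have := padicNorm.of_int (p := p) α
    nlinarith [padicNorm.nonneg (p := p) (α : ℚ), padicNorm.nonneg (p := p) (EB Q q)]
  · rw [padicNorm.mul]
    have := padicNorm.of_int (p := p) β
    nlinarith [padicNorm.nonneg (p := p) (β : ℚ), padicNorm.nonneg (p := p) (EB Q (derivative q))]

/-- absolute value of `∏_{u ≤ l < v, l ≠ k} (l - k)` is at least that of `(v-u-1)!` -/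
lemma prod_erase {u v k : ℕ} (h1 : u ≤ k) (h2 : k < v) :
    padicNorm p (((v - u - 1).factorial : ℕ) : ℚ) ≤
      padicNorm p (∏ l ∈ (Finset.Ico u v).erase k, ((l : ℚ) - k)) := by
  have hs : (Finset.Ico u v).erase k = Finset.Ico u k ∪ Finset.Ico (k + 1) v := by
    ext x
    simp only [Finset.mem_erase, Finset.mem_Ico, Finset.mem_union]
    omega
  have hd : Disjoint (Finset.Ico u k) (Finset.Ico (k + 1) v) := by
    rw [Finset.disjoint_left]
    intro x hx hx'
    rw [Finset.mem_Ico] at hx hx'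
    omega
  have e1 : ∏ l ∈ Finset.Ico u k, ((l : ℚ) - k) = (-1) ^ (k - u) * (((k - u).factorial : ℕ) : ℚ) := by
    rw [Finset.prod_Ico_eq_prod_range, ← Finset.prod_range_reflect]
    have : ∀ i ∈ Finset.range (k - u), (((u + (k - u - 1 - i) : ℕ) : ℚ) - k) = (-1) * ((i + 1 : ℕ) : ℚ) := by
      intro i hi
      rw [Finset.mem_range] at hi
      rw [show u + (k - u - 1 - i) = k - (i + 1) by omega, Nat.cast_sub (by omega)]
      ring
    rw [Finset.prod_congr rfl this, Finset.prod_mul_distrib, Finset.prod_const, Finset.card_range,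
      ← Finset.prod_range_add_one_eq_factorial]
    push_cast
    rfl
  have e2 : ∏ l ∈ Finset.Ico (k + 1) v, ((l : ℚ) - k) = (((v - (k + 1)).factorial : ℕ) : ℚ) := by
    rw [Finset.prod_Ico_eq_prod_range, ← Finset.prod_range_add_one_eq_factorial]
    push_cast
    refine Finset.prod_congr rfl fun i _ => ?_
    ring
  rw [hs, Finset.prod_union hd, e1, e2]
  have hn : padicNorm p ((-1 : ℚ) ^ (k - u)) = 1 := by
    rcases neg_one_pow_eq_or ℚ (k - u) with h | h <;> rw [h] <;> simp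
  rw [padicNorm.mul, padicNorm.mul, hn, one_mul, ← padicNorm.mul]
  have hdvd : (k - u).factorial * (v - (k + 1)).factorial ∣ (v - u - 1).factorial := by
    have := Nat.factorial_mul_factorial_dvd_factorial_add (k - u) (v - (k + 1))
    rwa [show k - u + (v - (k + 1)) = v - u - 1 by omega] at this
  have h3 := padic_int_dvd (p := p) (Int.natCast_dvd_natCast.2 hdvd)
  push_cast at h3 ⊢
  exact h3

/-- residues in the middle case -/
lemma rs_bd {n i j k : ℕ} (h : i + j ≤ 4 * n) (hk : k ∈ Finset.Icc n (5 * n)) :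
    padicNorm p (rs n (5 * n) (P2P n i * P2Q n j) k) ≤
      padicNorm p ((n.factorial : ℕ) : ℚ) * (padicNorm p (((4 * n - i - j).factorial : ℕ) : ℚ))⁻¹ := by
  have hpos : 0 ≤ padicNorm p ((n.factorial : ℕ) : ℚ) * (padicNorm p (((4 * n - i - j).factorial : ℕ) : ℚ))⁻¹ :=
    mul_nonneg (padicNorm.nonneg _) (inv_nonneg.2 (padicNorm.nonneg _))
  rw [Finset.mem_Icc] at hk
  unfold rs
  by_cases h1 : k < n + i
  · rw [eval_mul, eval_mul]
    unfold P2P
    rw [EE_eval_neg hk.1 h1]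
    simpa using hpos
  by_cases h2 : 5 * n + 1 - j ≤ k
  · rw [eval_mul, eval_mul]
    unfold P2Q
    rw [EE_eval_neg h2 (by omega)]
    simpa using hpos
  push Not at h1 h2
  -- cancel the common factors
  have hden : ∏ l ∈ (Finset.Icc n (5 * n)).erase k, ((l : ℚ) - k) =
      (P2P n i).eval (-(k : ℚ)) * (P2Q n j).eval (-(k : ℚ)) *
        ∏ l ∈ (Finset.Ico (n + i) (5 * n + 1 - j)).erase k, ((l : ℚ) - k) := by
    have hs : (Finset.Icc n (5 * n)).erase k = (Finset.Ico n (n + i) ∪ Finset.Ico (5 * n + 1 - j) (5 * n + 1)) ∪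
        (Finset.Ico (n + i) (5 * n + 1 - j)).erase k := by
      ext x
      simp only [Finset.mem_erase, Finset.mem_Ico, Finset.mem_union, Finset.mem_Icc]
      omega
    have hd1 : Disjoint (Finset.Ico n (n + i)) (Finset.Ico (5 * n + 1 - j) (5 * n + 1)) := by
      rw [Finset.disjoint_left]
      intro x hx hx'
      rw [Finset.mem_Ico] at hx hx'
      omega
    have hd2 : Disjoint (Finset.Ico n (n + i) ∪ Finset.Ico (5 * n + 1 - j) (5 * n + 1))
        ((Finset.Ico (n + i) (5 * n + 1 - j)).erase k) := by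
      rw [Finset.disjoint_left]
      intro x hx hx'
      rw [Finset.mem_erase, Finset.mem_Ico] at hx'
      rw [Finset.mem_union, Finset.mem_Ico, Finset.mem_Ico] at hx
      omega
    rw [hs, Finset.prod_union hd2, Finset.prod_union hd1]
    unfold P2P P2Q EE
    rw [eval_prod, eval_prod]
    congr 1
    congr 1
    · refine Finset.prod_congr rfl fun l _ => ?_
      rw [eval_add, eval_X, eval_C]
      ring
    · refine Finset.prod_congr rfl fun l _ => ?_
      rw [eval_add, eval_X, eval_C]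
      ring
  have hne : ∀ s : Finset ℕ, k ∉ s → (∏ l ∈ s, ((l : ℚ) - k)) ≠ 0 := by
    intro s hs
    refine Finset.prod_ne_zero_iff.2 fun l hl => ?_
    intro h0
    apply hs
    have : (l : ℚ) = k := by linarith
    have : l = k := by exact_mod_cast this
    rwa [← this]
  have hP0 : (P2P n i).eval (-(k : ℚ)) ≠ 0 := by
    unfold P2P EE
    rw [eval_prod]
    refine Finset.prod_ne_zero_iff.2 fun l hl => ?_
    rw [Finset.mem_Ico] at hl
    rw [eval_add, eval_X, eval_C]
    intro h0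
    have : (l : ℚ) = k := by linarith
    have : l = k := by exact_mod_cast this
    omega
  have hQ0 : (P2Q n j).eval (-(k : ℚ)) ≠ 0 := by
    unfold P2Q EE
    rw [eval_prod]
    refine Finset.prod_ne_zero_iff.2 fun l hl => ?_
    rw [Finset.mem_Ico] at hl
    rw [eval_add, eval_X, eval_C]
    intro h0
    have : (l : ℚ) = k := by linarith
    have : l = k := by exact_mod_cast this
    omega
  have hD0 := hne ((Finset.Ico (n + i) (5 * n + 1 - j)).erase k) (by simp)
  have hval : (An n * (P2P n i * P2Q n j)).eval (-(k : ℚ)) / ∏ l ∈ (Finset.Icc n (5 * n)).erase k, ((l : ℚ) - k) =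
      (An n).eval (-(k : ℚ)) / ∏ l ∈ (Finset.Ico (n + i) (5 * n + 1 - j)).erase k, ((l : ℚ) - k) := by
    rw [hden, eval_mul, eval_mul]
    field_simp
  rw [hval, padicNorm.div, div_eq_mul_inv]
  have h3 : padicNorm p ((An n).eval (-(k : ℚ))) ≤ padicNorm p ((n.factorial : ℕ) : ℚ) := by
    rw [An_eq]
    have := EE_norm (p := p) 0 n (-(k : ℤ))
    rw [Nat.sub_zero] at this
    push_cast at this ⊢
    exact this
  have h4 := prod_erase (p := p) (u := n + i) (v := 5 * n + 1 - j) (k := k) h1 h2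
  rw [show 5 * n + 1 - j - (n + i) - 1 = 4 * n - i - j by omega] at h4
  refine mul_le_mul h3 ?_ (inv_nonneg.2 (padicNorm.nonneg _)) (padicNorm.nonneg _)
  refine inv_anti₀ ?_ h4
  have : (((4 * n - i - j).factorial : ℕ) : ℚ) ≠ 0 := by exact_mod_cast Nat.factorial_ne_zero _
  exact lt_of_le_of_ne (padicNorm.nonneg _) (Ne.symm fun h0 => this (padicNorm.zero_of_padicNorm_eq_zero h0))

/-- the whole entry -/
lemma entry_bd {Q : ℤ} (hQ1 : Q ≠ 1) (hQ : padicNorm p (Q : ℚ) = 1) {n i j : ℕ} (hn : 1 ≤ n)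
    (hi : i ≤ 4 * n) (hj : j ≤ 4 * n) (α β γ : ℤ) :
    nr p (L Q n (5 * n) α β γ (P2P n i * P2Q n j)) ≤
      (p : ℝ) ^ ((3 * (n : ℝ) - i - j) / ((p : ℝ) - 1) +
        (padicValInt p (Q - 1) : ℝ) * max ((i : ℝ) + j - 3 * n) 0 + (4 * (Nat.log p (5 * n) : ℝ) + 4)) := by
  have hp1 : (1 : ℝ) < p := by exact_mod_cast hp.out.one_lt
  have hp2 : (2 : ℝ) ≤ p := by exact_mod_cast hp.out.two_le
  have hpq : (0 : ℚ) < p := by exact_mod_cast hp.out.pos
  have hpq' : (p : ℚ) ≠ 0 := hpq.ne'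
  set K := Nat.log p (5 * n) with hK
  set kk := padicValInt p (Q - 1) with hkk
  have hK1 : 5 * n < p ^ (K + 1) := Nat.lt_pow_succ_log_self hp.out.one_lt _
  have hlogn : Nat.log p n ≤ K := Nat.log_mono_right (by omega)
  have hlogn' : (Nat.log p n : ℝ) ≤ K := by exact_mod_cast hlogn
  have hvn := val_ge (p := p) n
  have hd1 : 1 / ((p : ℝ) - 1) ≤ 1 := by
    rw [div_le_one (by linarith)]
    linarith
  have hd0 : 0 < 1 / ((p : ℝ) - 1) := by
    apply div_pos one_pos
    linarith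
  have hkk0 : (0 : ℝ) ≤ kk := Nat.cast_nonneg _
  have hK0 : (0 : ℝ) ≤ K := Nat.cast_nonneg _
  have hmax0 : (0 : ℝ) ≤ kk * max ((i : ℝ) + j - 3 * n) 0 := mul_nonneg hkk0 (le_max_right _ _)
  have hmax1 : (kk : ℝ) * ((i : ℝ) + j - 3 * n) ≤ kk * max ((i : ℝ) + j - 3 * n) 0 :=
    mul_le_mul_of_nonneg_left (le_max_left _ _) hkk0
  set X : ℝ := (3 * (n : ℝ) - i - j) / ((p : ℝ) - 1) + (kk : ℝ) * max ((i : ℝ) + j - 3 * n) 0 +
    (4 * (K : ℝ) + 4) with hX
  have hXpos : 0 ≤ (p : ℝ) ^ X := Real.rpow_nonneg (by linarith) _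
  have hL : L Q n (5 * n) α β γ (P2P n i * P2Q n j) =
      ∑ k ∈ Finset.Icc n (5 * n), (Q : ℚ) ^ k * rs n (5 * n) (P2P n i * P2Q n j) k *
        ((γ : ℚ) + (α : ℚ) * Tz Q 1 k + (β : ℚ) * Tz Q 2 k) +
      (-(α : ℚ) * EB Q (pp n (5 * n) (P2P n i * P2Q n j)) +
        (β : ℚ) * EB Q (derivative (pp n (5 * n) (P2P n i * P2Q n j)))) := by
    change Lf Q n (5 * n) α β γ (P2P n i * P2Q n j) = _
    unfold Lf
    ring
  rw [hL]
  refine nr_add ?_ ?_
  · -- residues
    refine nr_sum _ _ hXpos fun k hk => ?_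
    have hk' := Finset.mem_Icc.1 hk
    by_cases hij : i + j ≤ 4 * n
    · have h2 := rs_bd (p := p) hij hk
      have h3 := cf_norm hQ α β γ k K (lt_of_le_of_lt hk'.2 hK1)
      rw [fact_norm, fact_norm_inv] at h2
      have h4 : padicNorm p ((Q : ℚ) ^ k * rs n (5 * n) (P2P n i * P2Q n j) k *
          ((γ : ℚ) + (α : ℚ) * Tz Q 1 k + (β : ℚ) * Tz Q 2 k)) ≤
          (p : ℚ) ^ (-(padicValNat p n.factorial : ℤ) + (padicValNat p (4 * n - i - j).factorial : ℤ) +
            2 * (K : ℤ)) := by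
        rw [padicNorm.mul, padicNorm.mul, norm_pow, hQ, one_pow, one_mul, zpow_add₀ hpq', zpow_add₀ hpq']
        exact mul_le_mul h2 h3 (padicNorm.nonneg _) (by positivity)
      refine nr_le h4 ?_
      have hv2 := val_le (p := p) (4 * n - i - j)
      have e1 : ((4 * n - i - j : ℕ) : ℝ) = 4 * (n : ℝ) - i - j := by
        rw [Nat.sub_sub, Nat.cast_sub (by omega)]
        push_cast
        ring
      rw [e1] at hv2
      simp only [Int.cast_add, Int.cast_neg, Int.cast_natCast, Int.cast_mul, Int.cast_ofNat]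
      have e2 : (4 * (n : ℝ) - i - j) / ((p : ℝ) - 1) =
        (3 * (n : ℝ) - i - j) / ((p : ℝ) - 1) + (n : ℝ) / ((p : ℝ) - 1) := by
        rw [← add_div]
        congr 1
        ring
      rw [e2] at hv2
      rw [hX]
      linarith
    · have h2 : rs n (5 * n) (P2P n i * P2Q n j) k = 0 := by
        unfold rs
        rw [PQ_over (n := n) (i := i) (j := j) (by omega) (by omega) (by omega), Pn_eq, eval_mul, eval_mul,
          EE_eval_neg hk'.1 (by omega)]
        simp
      rw [h2, mul_zero, zero_mul, nr_zero]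
      exact hXpos
  · -- the polynomial part
    by_cases hij : i + j ≤ 4 * n
    · have hq : pp n (5 * n) (P2P n i * P2Q n j) = EE 0 n /ₘ EE (n + i) (5 * n + 1 - j) := by
        unfold pp
        rw [An_eq, Pn_split (n := n) (i := i) (j := j) (by omega)]
        exact divByMonic_cancel (EE_monic _ _) ((EE_monic _ _).mul (EE_monic _ _))
      rw [hq]
      set g := 5 * n + 1 - j - (n + i) with hg
      have hg' : g = 4 * n + 1 - i - j := by omega
      by_cases hgn : g ≤ n
      · have hEG : EE (n + i) (5 * n + 1 - j) = GG (((1 - ((5 * n + 1 - j : ℕ) : ℤ) : ℤ)) : ℚ) g := by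
          rw [EE_eq_GG (by omega)]
          push_cast
          rfl
        have hval : ∀ x : ℤ, padicNorm p ((EE 0 n /ₘ EE (n + i) (5 * n + 1 - j)).eval (x : ℚ)) ≤
            (p : ℚ) ^ ((padicValNat p g.factorial : ℤ) + K + (-(padicValNat p n.factorial : ℤ))) := by
          intro x
          rw [hEG]
          have h2 := P2_divG (p := p) (f := EE 0 n) (k := K) (by rw [EE_natDegree]; omega) g
            (1 - ((5 * n + 1 - j : ℕ) : ℤ)) (A := padicNorm p ((n.factorial : ℕ) : ℚ))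
            (padicNorm.nonneg _) (fun y => by
              have := EE_norm (p := p) 0 n y
              rwa [Nat.sub_zero] at this) x
          refine h2.trans (le_of_eq ?_)
          rw [fact_norm_inv, fact_norm, zpow_add₀ hpq', zpow_add₀ hpq', zpow_natCast (p : ℚ) K]
        have hdeg : (EE 0 n /ₘ EE (n + i) (5 * n + 1 - j)).natDegree = n - g := by
          rw [natDegree_divByMonic _ (EE_monic _ _), EE_natDegree, EE_natDegree, Nat.sub_zero]
        have h3 := eb_norm (p := p) hQ1 (N := n - g + 1) (K := K) (by rw [hdeg]; omega) (by rw [hdeg]; omega)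
          (by positivity) hval α β
        rw [← hkk, ← pow_mul, ← zpow_natCast (p : ℚ) (kk * (n - g + 1)), ← zpow_natCast (p : ℚ) K,
          ← zpow_add₀ hpq', ← zpow_add₀ hpq'] at h3
        refine nr_le h3 ?_
        have hv2 := val_le (p := p) g
        have e1 : (g : ℝ) = 4 * (n : ℝ) + 1 - i - j := by
          rw [hg', Nat.sub_sub, Nat.cast_sub (by omega)]
          push_cast
          ring
        have e2 : ((n - g + 1 : ℕ) : ℝ) = (i : ℝ) + j - 3 * n := by
          rw [Nat.cast_add, Nat.cast_sub hgn, e1]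
          push_cast
          ring
        rw [e1] at hv2
        have e3 : (4 * (n : ℝ) + 1 - i - j) / ((p : ℝ) - 1) =
          (3 * (n : ℝ) - i - j) / ((p : ℝ) - 1) + (n : ℝ) / ((p : ℝ) - 1) + 1 / ((p : ℝ) - 1) := by
          rw [← add_div, ← add_div]
          congr 1
          ring
        rw [e3] at hv2
        have e4 : (((((kk * (n - g + 1) : ℕ) : ℤ) + (((K : ℕ) : ℤ) +
          ((padicValNat p g.factorial : ℤ) + K + (-(padicValNat p n.factorial : ℤ))))) : ℤ) : ℝ) =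
            (kk : ℝ) * ((n - g + 1 : ℕ) : ℝ) + (K + ((padicValNat p g.factorial : ℝ) + K +
              (-(padicValNat p n.factorial : ℝ)))) := by
          simp only [Int.cast_add, Int.cast_neg, Int.cast_natCast, Nat.cast_mul, Int.cast_mul]
        rw [e4, e2, hX]
        linarith
      · have h0 : EE 0 n /ₘ EE (n + i) (5 * n + 1 - j) = 0 := by
          rw [divByMonic_eq_zero_iff (EE_monic _ _)]
          refine degree_lt_degree ?_
          rw [EE_natDegree, EE_natDegree]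
          omega
        rw [h0]
        simp only [map_zero, mul_zero, add_zero, nr_zero]
        exact hXpos
    · set w := n + i - (5 * n + 1 - j) with hw
      have hw' : w = i + j - 4 * n - 1 := by omega
      have hq : pp n (5 * n) (P2P n i * P2Q n j) = EE 0 n * EE (5 * n + 1 - j) (n + i) := by
        unfold pp
        rw [An_eq, PQ_over (n := n) (i := i) (j := j) (by omega) (by omega) (by omega)]
        rw [show EE 0 n * (Pn n (5 * n) * EE (5 * n + 1 - j) (n + i)) =
          Pn n (5 * n) * (EE 0 n * EE (5 * n + 1 - j) (n + i)) by ring]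
        exact mul_divByMonic_cancel_left _ (Pn_monic _ _)
      rw [hq]
      have hdeg : (EE 0 n * EE (5 * n + 1 - j) (n + i)).natDegree = n + w := by
        rw [(EE_monic _ _).natDegree_mul (EE_monic _ _), EE_natDegree, EE_natDegree, Nat.sub_zero]
      have hval : ∀ x : ℤ, padicNorm p ((EE 0 n * EE (5 * n + 1 - j) (n + i)).eval (x : ℚ)) ≤
          (p : ℚ) ^ (-(padicValNat p n.factorial : ℤ) + (-(padicValNat p w.factorial : ℤ))) := by
        intro x
        rw [eval_mul, padicNorm.mul, zpow_add₀ hpq', ← fact_norm, ← fact_norm]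
        have h2 := EE_norm (p := p) 0 n x
        rw [Nat.sub_zero] at h2
        exact mul_le_mul h2 (EE_norm (p := p) _ _ x) (padicNorm.nonneg _) (padicNorm.nonneg _)
      have h3 := eb_norm (p := p) hQ1 (N := n + w + 1) (K := K) (by rw [hdeg]; omega) (by rw [hdeg]; omega)
        (by positivity) hval α β
      rw [← hkk, ← pow_mul, ← zpow_natCast (p : ℚ) (kk * (n + w + 1)), ← zpow_natCast (p : ℚ) K,
        ← zpow_add₀ hpq', ← zpow_add₀ hpq'] at h3
      refine nr_le h3 ?_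
      have hv2 := val_ge (p := p) w
      have hlogw : Nat.log p w ≤ K := Nat.log_mono_right (by omega)
      have hlogw' : (Nat.log p w : ℝ) ≤ K := by exact_mod_cast hlogw
      have e1 : (w : ℝ) = (i : ℝ) + j - 4 * n - 1 := by
        rw [hw', Nat.sub_sub, Nat.cast_sub (by omega)]
        push_cast
        ring
      have e2 : ((n + w + 1 : ℕ) : ℝ) = (i : ℝ) + j - 3 * n := by
        rw [Nat.cast_add, Nat.cast_add, e1]
        push_cast
        ring
      rw [e1] at hv2
      have e3 : ((i : ℝ) + j - 4 * n - 1) / ((p : ℝ) - 1) =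
        -((3 * (n : ℝ) - i - j) / ((p : ℝ) - 1)) - (n : ℝ) / ((p : ℝ) - 1) - 1 / ((p : ℝ) - 1) := by
        rw [← neg_div, ← sub_div, ← sub_div]
        congr 1
        ring
      rw [e3] at hv2
      have e4 : (((((kk * (n + w + 1) : ℕ) : ℤ) + (((K : ℕ) : ℤ) +
        (-(padicValNat p n.factorial : ℤ) + (-(padicValNat p w.factorial : ℤ))))) : ℤ) : ℝ) =
          (kk : ℝ) * ((n + w + 1 : ℕ) : ℝ) + (K + (-(padicValNat p n.factorial : ℝ) +
            (-(padicValNat p w.factorial : ℝ)))) := by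
        simp only [Int.cast_add, Int.cast_neg, Int.cast_natCast, Nat.cast_mul, Int.cast_mul]
      rw [e4, e2, hX]
      linarith

/-! ### sums -/

lemma sum_lin (a : ℝ) : ∀ m : ℕ, ∑ i ∈ Finset.range m, (a - (i : ℝ)) = m * a - m * ((m : ℝ) - 1) / 2 := by
  intro m
  induction m with
  | zero => simp
  | succ m ih =>
    rw [Finset.sum_range_succ, ih]
    push_cast
    ring

lemma sum_max (a : ℝ) : ∀ m : ℕ, ∑ i ∈ Finset.range m, max ((i : ℝ) - a) 0 ≤ (max ((m : ℝ) - a) 0) ^ 2 / 2 := by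
  intro m
  induction m with
  | zero =>
    simp only [Finset.range_zero, Finset.sum_empty]
    positivity
  | succ m ih =>
    rw [Finset.sum_range_succ]
    push_cast
    rcases le_total ((m : ℝ) - a) 0 with h | h
    · rw [max_eq_right h] at ih ⊢
      have : (0 : ℝ) ≤ (max ((m : ℝ) + 1 - a) 0) ^ 2 / 2 := by positivity
      simp only [ne_eq, OfNat.ofNat_ne_zero, not_false_eq_true, zero_pow, zero_div] at ih
      linarith
    · rw [max_eq_left h] at ih ⊢
      rw [max_eq_left (by linarith : (0 : ℝ) ≤ (m : ℝ) + 1 - a)]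
      nlinarith

theorem det_bd {Q : ℤ} (hQ1 : Q ≠ 1) (hQ : padicNorm p (Q : ℚ) = 1) {n m : ℕ} (hn : 1 ≤ n)
    (hm : m ≤ 4 * n + 1) (α β γ : ℤ) :
    nr p (DD Q n (5 * n) m α β γ) ≤
      (p : ℝ) ^ (2 / ((p : ℝ) - 1) * ((m : ℝ) * (3 * n / 2) - m * ((m : ℝ) - 1) / 2) +
        (padicValInt p (Q - 1) : ℝ) * (max ((m : ℝ) - 3 * n / 2) 0) ^ 2 +
        m * (4 * (Nat.log p (5 * n) : ℝ) + 4)) := by
  have hp1 : (1 : ℝ) < p := by exact_mod_cast hp.out.one_lt
  have hp0 : (0 : ℝ) < p := by linarith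
  have hpm : (0 : ℝ) < (p : ℝ) - 1 := by linarith
  have h0 : DD Q n (5 * n) m α β γ =
      (Matrix.of fun i j : Fin m => L Q n (5 * n) α β γ (P2P n i * P2Q n j)).det := by
    unfold DD
    rw [P2_det (L Q n (5 * n) α β γ) m (P2P n) (P2Q n)
      (fun i _ => ⟨EE_monic _ _, by unfold P2P; rw [EE_natDegree]; omega⟩)
      (fun i hi => ⟨EE_monic _ _, by unfold P2Q; rw [EE_natDegree]; omega⟩)]
  rw [h0]
  set K := Nat.log p (5 * n) with hK
  set kk := padicValInt p (Q - 1) with hkk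
  have hkk0 : (0 : ℝ) ≤ kk := Nat.cast_nonneg _
  let e : ℕ → ℝ := fun i => (3 * (n : ℝ) / 2 - i) / ((p : ℝ) - 1) + kk * max ((i : ℝ) - 3 * n / 2) 0
  have h1 := leibniz (p := p) m (Matrix.of fun i j : Fin m => L Q n (5 * n) α β γ (P2P n i * P2Q n j))
    (fun i => (p : ℝ) ^ (e i + (4 * (K : ℝ) + 4))) (fun j => (p : ℝ) ^ (e j))
    (fun i => (Real.rpow_nonneg hp0.le _)) (fun j => (Real.rpow_nonneg hp0.le _)) (fun i j => by
      rw [Matrix.of_apply]
      refine (entry_bd hQ1 hQ hn (by omega) (by omega) α β γ).trans ?_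
      rw [← Real.rpow_add hp0]
      refine Real.rpow_le_rpow_of_exponent_le hp1.le ?_
      have hmax : max (((i : ℕ) : ℝ) + ((j : ℕ) : ℝ) - 3 * n) 0 ≤
          max (((i : ℕ) : ℝ) - 3 * n / 2) 0 + max (((j : ℕ) : ℝ) - 3 * n / 2) 0 := by
        refine max_le ?_ (add_nonneg (le_max_right _ _) (le_max_right _ _))
        have h1 := le_max_left (((i : ℕ) : ℝ) - 3 * n / 2) 0
        have h2 := le_max_left (((j : ℕ) : ℝ) - 3 * n / 2) 0
        linarith
      have hmax2 := mul_le_mul_of_nonneg_left hmax hkk0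
      have e1 : (3 * (n : ℝ) - ((i : ℕ) : ℝ) - ((j : ℕ) : ℝ)) / ((p : ℝ) - 1) =
          (3 * (n : ℝ) / 2 - ((i : ℕ) : ℝ)) / ((p : ℝ) - 1) +
            (3 * (n : ℝ) / 2 - ((j : ℕ) : ℝ)) / ((p : ℝ) - 1) := by
        rw [← add_div]
        congr 1
        ring
      rw [e1]
      simp only [e]
      rw [mul_add] at hmax2
      linarith)
  refine h1.trans ?_
  rw [← Real.rpow_sum_of_pos hp0, ← Real.rpow_sum_of_pos hp0, ← Real.rpow_add hp0]
  refine Real.rpow_le_rpow_of_exponent_le hp1.le ?_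
  rw [Finset.sum_add_distrib, Finset.sum_const, Finset.card_range, nsmul_eq_mul]
  have h2 : ∑ i ∈ Finset.range m, e i ≤ ((m : ℝ) * (3 * n / 2) - m * ((m : ℝ) - 1) / 2) / ((p : ℝ) - 1) +
      kk * ((max ((m : ℝ) - 3 * n / 2) 0) ^ 2 / 2) := by
    simp only [e]
    rw [Finset.sum_add_distrib, ← Finset.sum_div, ← Finset.mul_sum, sum_lin]
    have := mul_le_mul_of_nonneg_left (sum_max (3 * n / 2) m) hkk0
    linarith
  have e3 : 2 / ((p : ℝ) - 1) * ((m : ℝ) * (3 * n / 2) - m * ((m : ℝ) - 1) / 2) =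
      2 * (((m : ℝ) * (3 * n / 2) - m * ((m : ℝ) - 1) / 2) / ((p : ℝ) - 1)) := by ring
  rw [e3]
  linarith

end

end Pool.Agent.TH50.DQ.One1

namespace Pool.Agent.TH50.DQ

open Pool.Agent.LP One1

/-- primes dividing `Q - 1` -/
theorem A_one : S_one := by
  intro Q hQ0 hQ1 p hp hdvd
  have : Fact p.Prime := ⟨hp⟩
  have hp1 : (1 : ℝ) < p := by exact_mod_cast hp.one_lt
  have hp2 : (2 : ℝ) ≤ p := by exact_mod_cast hp.two_le
  have hp0 : (0 : ℝ) < p := by linarith
  have hpm : (0 : ℝ) < (p : ℝ) - 1 := by linarith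
  have hlp : 0 < Real.log p := Real.log_pos hp1
  set kk := padicValInt p (Q - 1) with hkk
  have hkk0 : (0 : ℝ) ≤ kk := Nat.cast_nonneg _
  have hQn : padicNorm p (Q : ℚ) = 1 := by
    rw [padicNorm.int_eq_one_iff]
    intro h
    have h1 : (p : ℤ) ∣ 1 := by
      have := dvd_sub h hdvd
      simpa using this
    have h2 : (p : ℕ) ∣ 1 := by exact_mod_cast h1
    exact hp.one_lt.ne' (Nat.dvd_one.mp h2)
  refine ⟨200 * (Real.log p + 1) * (kk + 1), by positivity, ?_⟩
  intro n hn m hm1 hm2 α β γ hne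
  have hn1 : (2 : ℝ) ≤ n := by exact_mod_cast hn
  have hn0 : (0 : ℝ) < n := by linarith
  have hbd := det_bd (p := p) hQ1 hQn (by omega : 1 ≤ n) hm2 α β γ
  have hpos : 0 < nr p (DD Q n (5 * n) m α β γ) := by
    unfold nr
    have h := padicNorm.nonzero (p := p) hne
    have h2 := padicNorm.nonneg (p := p) (DD Q n (5 * n) m α β γ)
    exact_mod_cast lt_of_le_of_ne h2 (Ne.symm h)
  have hlog := Real.log_le_log hpos hbd
  rw [Real.log_rpow hp0] at hlog
  have hgoal : Real.log ((padicNorm p (DD Q n (5 * n) m α β γ) : ℚ) : ℝ) =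
    Real.log (nr p (DD Q n (5 * n) m α β γ)) := rfl
  rw [hgoal]
  refine hlog.trans ?_
  -- the logarithm
  have hln : (1 : ℝ) / 2 ≤ Real.log n := by
    have h1 := Real.log_two_gt_d9
    have h2 := Real.log_le_log (by norm_num : (0 : ℝ) < 2) hn1
    linarith
  have hK : (Nat.log p (5 * n) : ℝ) * Real.log p ≤ 4 * Real.log n := by
    have h1 : (p : ℝ) ^ (Nat.log p (5 * n)) ≤ 5 * n := by
      exact_mod_cast Nat.pow_log_le_self p (by omega : 5 * n ≠ 0)
    have h2 := Real.log_le_log (by positivity) h1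
    rw [Real.log_pow] at h2
    have h3 : (5 : ℝ) * n ≤ (n : ℝ) ^ 4 := by
      have h4 : (8 : ℝ) ≤ (n : ℝ) ^ 3 := by
        have := pow_le_pow_left₀ (by norm_num : (0 : ℝ) ≤ 2) hn1 3
        norm_num at this
        exact this
      nlinarith
    have h5 := Real.log_le_log (by positivity) h3
    rw [Real.log_pow] at h5
    push_cast at h5
    linarith
  have hm1' : (4 : ℝ) * n - 1 ≤ m := by
    have : 4 * n ≤ m + 1 := by omega
    have : (4 : ℝ) * n ≤ m + 1 := by exact_mod_cast this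
    linarith
  have hm2' : (m : ℝ) ≤ 4 * n + 1 := by exact_mod_cast hm2
  -- first part
  have hA : 2 / ((p : ℝ) - 1) * ((m : ℝ) * (3 * n / 2) - m * ((m : ℝ) - 1) / 2) ≤
      -(4 / ((p : ℝ) - 1)) * (n : ℝ) ^ 2 + 20 * n := by
    have h1 : (m : ℝ) * (3 * n / 2) - m * ((m : ℝ) - 1) / 2 ≤ -2 * (n : ℝ) ^ 2 + 10 * n := by nlinarith
    have h2 : (0 : ℝ) ≤ 2 / ((p : ℝ) - 1) := by positivity
    have h3 := mul_le_mul_of_nonneg_left h1 h2
    have h4 : 1 / ((p : ℝ) - 1) ≤ 1 := by
      rw [div_le_one hpm]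
      linarith
    have h5 : 2 / ((p : ℝ) - 1) * (-2 * (n : ℝ) ^ 2 + 10 * n) =
        -(4 / ((p : ℝ) - 1)) * (n : ℝ) ^ 2 + 20 * n * (1 / ((p : ℝ) - 1)) := by ring
    rw [h5] at h3
    have h6 : 20 * (n : ℝ) * (1 / ((p : ℝ) - 1)) ≤ 20 * n * 1 :=
      mul_le_mul_of_nonneg_left h4 (by positivity)
    linarith
  -- second part
  have hB : (kk : ℝ) * (max ((m : ℝ) - 3 * n / 2) 0) ^ 2 ≤ kk * (25 / 4 * (n : ℝ) ^ 2 + 6 * n) := by
    refine mul_le_mul_of_nonneg_left ?_ hkk0
    rw [max_eq_left (by linarith)]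
    nlinarith
  -- third part
  have hC : (m : ℝ) * (4 * (Nat.log p (5 * n) : ℝ) + 4) * Real.log p ≤
      5 * n * (16 * Real.log n + 4 * Real.log p) := by
    have h1 : (m : ℝ) ≤ 5 * n := by linarith
    have h2 : (4 * (Nat.log p (5 * n) : ℝ) + 4) * Real.log p ≤ 16 * Real.log n + 4 * Real.log p := by
      linarith
    rw [mul_assoc]
    refine mul_le_mul h1 h2 (by positivity) (by positivity)
  have hA' := mul_le_mul_of_nonneg_right hA hlp.le
  have hB' := mul_le_mul_of_nonneg_right hB hlp.le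
  have hnl : (n : ℝ) ≤ 2 * (n * Real.log n) := by nlinarith
  have hnl0 : 0 ≤ (n : ℝ) * Real.log n := by positivity
  have hfin : 20 * (n : ℝ) * Real.log p + kk * (6 * n) * Real.log p + 5 * n * (16 * Real.log n + 4 * Real.log p)
      ≤ 200 * (Real.log p + 1) * (kk + 1) * n * Real.log n := by
    have h1 : (n : ℝ) * Real.log p ≤ 2 * (n * Real.log n) * Real.log p :=
      mul_le_mul_of_nonneg_right hnl hlp.le
    have h2 : (kk : ℝ) * (n * Real.log p) ≤ kk * (2 * (n * Real.log n) * Real.log p) :=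
      mul_le_mul_of_nonneg_left h1 hkk0
    have h3 : 0 ≤ (kk : ℝ) * (n * Real.log n) := by positivity
    have h4 : 0 ≤ (n : ℝ) * Real.log n * Real.log p := by positivity
    have h5 : 0 ≤ (kk : ℝ) * (n * Real.log n) * Real.log p := by positivity
    nlinarith
  nlinarith

end Pool.Agent.TH50.DQ
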